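import Pool.Agent.RG4.Cert.C0
import Pool.Agent.RG4.Cert.C1
import Pool.Agent.RG4.Cert.C2
import Pool.Agent.RG4.Cert.C3
import Pool.Agent.RG4.Cert.C4
import Pool.Agent.RG4.Cert.C5
import Pool.Agent.RG4.Cert.C6
import Pool.Agent.RG4.Cert.C7
import Pool.Agent.RG4.Cert.C8
import Pool.Agent.RG4.Cert.C9
import Pool.Agent.RG4.Cert.C10
import Pool.Agent.RG4.Cert.C11
import Pool.Agent.RG4.Cert.C12
import Pool.Agent.RG4.Cert.C13
import Pool.Agent.RG4.Cert.C14
import Pool.Agent.RG4.Cert.C15
import Pool.Agent.RG4.Cert.C16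
import Pool.Agent.RG4.Cert.C17

/-!
# The certificate (MP_2d204b_co): all checks
-/

set_option autoImplicit false
set_option maxRecDepth 100000

namespace Pool.Agent.RG4

theorem cert_all : ∀ j, nat_lit 0 ≤ j → j < nat_lit 35470 → ∃ pd, chk T j pd = true :=
  rjoin cert0 (rjoin cert1 (rjoin cert2 (rjoin cert3 (rjoin cert4 (rjoin cert5 (rjoin cert6 (rjoin cert7 (rjoin cert8 (rjoin cert9 (rjoin cert10 (rjoin cert11 (rjoin cert12 (rjoin cert13 (rjoin cert14 (rjoin cert15 (rjoin cert16 (cert17)))))))))))))))))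

theorem root_fr : fr (T (nat_lit 35469)) = nat_lit 6 := by decide +kernel

theorem root_fnR : fnR (T (nat_lit 35469)) = nat_lit 0 := by decide +kernel

theorem root_fnB : fnB (T (nat_lit 35469)) = nat_lit 0 := by decide +kernel

theorem root_fm : fm (T (nat_lit 35469)) = nat_lit 0 := by decide +kernel

end Pool.Agent.RG4
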