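import Pool.Agent.RG4.Cert.D0
import Pool.Agent.RG4.Cert.D1
import Pool.Agent.RG4.Cert.D2
import Pool.Agent.RG4.Cert.D3
import Pool.Agent.RG4.Cert.D4
import Pool.Agent.RG4.Cert.D5
import Pool.Agent.RG4.Cert.D6
import Pool.Agent.RG4.Cert.D7

/-!
# The certificate (MP_2d204b_co): the table of all entries
-/

set_option autoImplicit false
set_option maxRecDepth 100000

namespace Pool.Agent.RG4

noncomputable def trT : Tr := (.node (.node (.node (.node (.node (.node (.node tr0 tr1) (.node tr2 tr3)) (.node (.node tr4 tr5) (.node tr6 tr7))) (.node (.node (.node tr8 tr9) (.node tr10 tr11)) (.node (.node tr12 tr13) (.node tr14 tr15)))) (.node (.node (.node (.node tr16 tr17) (.node tr18 tr19)) (.node (.node tr20 tr21) (.node tr22 tr23))) (.node (.node (.node tr24 tr25) (.node tr26 tr27)) (.node (.node tr28 tr29) (.node tr30 tr31))))) (.node (.node (.node (.node (.node tr32 tr33) (.node tr34 tr35)) (.node (.node tr36 tr37) (.node tr38 tr39))) (.node (.node (.node tr40 tr41) (.node tr42 tr43)) (.node (.node tr44 tr45) (.node tr46 tr47)))) (.node (.node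 (.node (.node tr48 tr49) (.node tr50 tr51)) (.node (.node tr52 tr53) (.node tr54 tr55))) (.node (.node (.node tr56 tr57) (.node tr58 tr59)) (.node (.node tr60 tr61) (.node tr62 tr63)))))) (.node (.node (.node (.node (.node (.node tr64 tr65) (.node tr66 tr67)) (.node (.node tr68 tr69) (.leaf (nat_lit 0)))) (.leaf (nat_lit 0))) (.leaf (nat_lit 0))) (.leaf (nat_lit 0))))

/-- the entry `i` of the table -/
noncomputable def T (i : Nat) : Nat := get trT (nat_lit 15) i

theorem band_and {a b : Bool} (h : band a b = true) : a = true ∧ b = true := by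
  cases a with
  | false => cases h
  | true => exact ⟨rfl, h⟩

/-- the list `l` of checks of the entries `i, ..., e - 1` -/
theorem chkL_range {T : Nat → Nat} (l : List Nat) (i e : Nat) (h : chkL T l i = true)
    (hl : Nat.add i l.length = e) : ∀ j, i ≤ j → j < e → ∃ pd, chk T j pd = true := by
  induction l generalizing i with
  | nil =>
    intro j h1 h2
    have h3 : i = e := hl
    omega
  | cons a l ih =>
    intro j h1 h2
    obtain ⟨h3, h4⟩ := band_and (a := chk T i a) (b := chkL T l (Nat.add i (nat_lit 1))) h
    have hl' : i + (l.length + 1) = e := hl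
    by_cases h5 : j = i
    · rw [h5]
      exact ⟨a, h3⟩
    · refine ih (Nat.add i (nat_lit 1)) h4 ?_ j ?_ h2
      · show i + 1 + l.length = e
        omega
      · show i + 1 ≤ j
        omega

theorem rjoin {P : Nat → Prop} {a b c : Nat} (h1 : ∀ j, a ≤ j → j < b → P j)
    (h2 : ∀ j, b ≤ j → j < c → P j) : ∀ j, a ≤ j → j < c → P j := by
  intro j h3 h4
  rcases Nat.lt_or_ge j b with h | h
  · exact h1 j h3 h
  · exact h2 j h h4

end Pool.Agent.RG4
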